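import Pool.Agent.H184Z.RZ.G

set_option autoImplicit false

namespace Pool.Agent.Results.MP_a839f6_an.AEquiv

open Filter Topology MeasureTheory Pool.Agent.H184Z.RZDefs

/-- For every compact `K ⊂ ℂⁿ` and every finite measure `μ` on `K`, the transfinite diameter
`δ(K)` exists and condition (R) is equivalent to condition (Z). -/
theorem result (n : ℕ) (hn : 2 ≤ n) (K : Set (Fin n → ℂ)) (hK : IsCompact K)
    (μ : Measure (Fin n → ℂ)) [IsFiniteMeasure μ] (hμ : μ Kᶜ = 0) : ∃ δ : ℝ,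
    Tendsto (fun k : ℕ => maxVDM K k ^ ((1 : ℝ) / l n k)) atTop (𝓝 δ) ∧
    (CondR (fun z => limsup (Phi K) (𝓝 z)) μ ↔
      Tendsto (fun k : ℕ => Z μ k ^ ((1 : ℝ) / (2 * l n k))) atTop (𝓝 δ)) :=
  Pool.Agent.H184Z.RZ.main μ (by omega) hK hμ

end Pool.Agent.Results.MP_a839f6_an.AEquiv
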